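-- module Pool.Agent.Run7.h404.GM.TOT
import Mathlib
import Pool.Agent.Run7.h834.GM.Iface

set_option autoImplicit false

namespace Run7.h404.GM

open Run7.h834.GM SimpleGraph

open Classical in
/-- ordered adjacent pairs -/
noncomputable def DP {V : Type} [Fintype V] (G : SimpleGraph V) : Finset (V × V) :=
  Finset.univ.filter fun q => G.Adj q.1 q.2

theorem mem_DP {V : Type} [Fintype V] (G : SimpleGraph V) (q : V × V) :
    q ∈ DP G ↔ G.Adj q.1 q.2 := by
  simp [DP]

theorem card_DP {V : Type} [Fintype V] (G : SimpleGraph V) :
    (DP G).card = 2 * G.edgeSet.ncard := by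
  classical
  have h1 : (DP G).card = ∑ v, G.degree v := by
    unfold DP
    rw [← Finset.univ_product_univ, Finset.card_filter, Finset.sum_product]
    refine Finset.sum_congr rfl fun v _ => ?_
    rw [← Finset.card_filter, ← SimpleGraph.card_neighborFinset_eq_degree]
    congr 1
    ext w
    simp
  rw [h1, SimpleGraph.sum_degrees_eq_twice_card_edges, ← SimpleGraph.coe_edgeFinset,
    Set.ncard_coe_finset]

theorem t_TOT (hSAME : S_SAME) (hDIFF : S_DIFF) (hTWN : S_TWN) (hCLI : S_CLI) (hQUO : S_QUO) :
    S_TOT := by
  classical
  intro F K h hL hC V _ G k Gs hG hcop hfree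
  have key : (DP Gs).card ≤ k * (DP G).card + uniq G * (h * h * (2 * K * k)) := by
    have hsplit : (DP Gs).card = ((DP Gs).filter fun q => q.1.2 = q.2.2).card +
        ((DP Gs).filter fun q => ¬ q.1.2 = q.2.2).card :=
      (Finset.card_filter_add_card_filter_not _).symm
    rw [hsplit]
    apply Nat.add_le_add
    · have h1 : ((DP Gs).filter fun q => q.1.2 = q.2.2).card ≤
          ((Finset.univ : Finset (Fin k)) ×ˢ DP G).card := by
        apply Finset.card_le_card_of_injOn (fun q => (q.1.2, (q.1.1, q.2.1)))
        · intro q hq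
          have hq' := Finset.mem_filter.1 (Finset.mem_coe.1 hq)
          have hadj := (mem_DP Gs q).1 hq'.1
          apply Finset.mem_coe.2
          apply Finset.mem_product.2
          refine ⟨Finset.mem_univ _, (mem_DP G _).2 ?_⟩
          obtain ⟨⟨x, a⟩, ⟨y, b⟩⟩ := q
          have hab : a = b := hq'.2
          subst hab
          exact hSAME F V G k Gs hG hcop hfree x y a hadj
        · intro q hq q' hq' he
          have h1 := (Finset.mem_filter.1 (Finset.mem_coe.1 hq)).2
          have h2 := (Finset.mem_filter.1 (Finset.mem_coe.1 hq')).2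
          obtain ⟨⟨x, a⟩, ⟨y, b⟩⟩ := q
          obtain ⟨⟨x', a'⟩, ⟨y', b'⟩⟩ := q'
          simp only [Prod.mk.injEq] at he h1 h2 ⊢
          obtain ⟨h3, h4, h5⟩ := he
          subst h1 h2 h3 h4 h5
          exact ⟨⟨rfl, rfl⟩, rfl, rfl⟩
      rwa [Finset.card_product, Finset.card_univ, Fintype.card_fin] at h1
    · haveI : Finite G.ConnectedComponent := Quot.finite _
      let S : Set G.ConnectedComponent :=
        {c : G.ConnectedComponent | ∃ x, G.connectedComponentMk x = c ∧ ¬ Twin G x}
      have hS : uniq G = S.toFinite.toFinset.card := Set.ncard_eq_toFinset_card S S.toFinite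
      rw [hS, mul_comm]
      apply Finset.card_le_mul_card_image_of_maps_to
        (f := fun q : (V × Fin k) × (V × Fin k) => G.connectedComponentMk q.1.1)
      · intro q hq
        have hq' := Finset.mem_filter.1 hq
        have hadj := (mem_DP Gs q).1 hq'.1
        rw [Set.Finite.mem_toFinset]
        obtain ⟨⟨x, a⟩, ⟨y, b⟩⟩ := q
        have hr : G.Reachable x y := hDIFF F V G k Gs hG hcop hfree x y a b hadj
        exact ⟨x, rfl, hTWN F V G k Gs hG hcop hfree x y a b hq'.2 hr hadj⟩
      · intro c _
        obtain ⟨x0, hx0⟩ := c.exists_rep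
        have hx0' : G.connectedComponentMk x0 = c := hx0
        have hQ : (DP (Quo G Gs x0)).card ≤ 2 * K * k := by
          rw [card_DP]
          have h1 := hL (Fin k) (Quo G Gs x0) (hQUO F V G k Gs hcop hfree x0)
          rw [Fintype.card_fin] at h1
          calc 2 * (Quo G Gs x0).edgeSet.ncard ≤ 2 * (K * k) := Nat.mul_le_mul_left _ h1
            _ = 2 * K * k := by ring
        refine le_trans ?_ (Nat.mul_le_mul_left (h * h) hQ)
        apply Finset.card_le_mul_card_image_of_maps_to
          (f := fun q : (V × Fin k) × (V × Fin k) => (q.1.2, q.2.2))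
        · intro q hq
          have hq1 := Finset.mem_filter.1 hq
          have hq' := Finset.mem_filter.1 hq1.1
          have hadj := (mem_DP Gs q).1 hq'.1
          have hc := hq1.2
          obtain ⟨⟨x, a⟩, ⟨y, b⟩⟩ := q
          have hr : G.Reachable x y := hDIFF F V G k Gs hG hcop hfree x y a b hadj
          have hx : G.Reachable x0 x := by
            apply SimpleGraph.ConnectedComponent.exact
            rw [hx0']
            exact hc.symm
          exact (mem_DP _ _).2 ⟨hq'.2, x, y, hx, hx.trans hr, hadj⟩
        · intro ab hab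
          have habn : ab.1 ≠ ab.2 := ((mem_DP _ _).1 hab).1
          let X : Finset V := Finset.univ.filter fun x =>
            ∃ y, Gs.Adj (x, ab.1) (y, ab.2) ∧ G.Reachable x0 y
          let Y : Finset V := Finset.univ.filter fun y =>
            ∃ x, Gs.Adj (x, ab.1) (y, ab.2) ∧ G.Reachable x0 x
          have hX : X.card ≤ h := by
            apply hC V G hG.1 X
            intro x hx x' hx' hne
            obtain ⟨y, hy, hyr⟩ := (Finset.mem_filter.1 (Finset.mem_coe.1 hx)).2
            obtain ⟨y', hy', hyr'⟩ := (Finset.mem_filter.1 (Finset.mem_coe.1 hx')).2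
            exact (hCLI F V G k Gs hG hcop hfree x y x' y' ab.1 ab.2 habn
              (hyr.symm.trans hyr') hy hy').resolve_left hne
          have hY : Y.card ≤ h := by
            apply hC V G hG.1 Y
            intro y hy y' hy' hne
            obtain ⟨x, hx, hxr⟩ := (Finset.mem_filter.1 (Finset.mem_coe.1 hy)).2
            obtain ⟨x', hx', hxr'⟩ := (Finset.mem_filter.1 (Finset.mem_coe.1 hy')).2
            exact (hCLI F V G k Gs hG hcop hfree y x y' x' ab.2 ab.1 habn.symm
              (hxr.symm.trans hxr') hx.symm hx'.symm).resolve_left hne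
          refine le_trans ?_ (Nat.mul_le_mul hX hY)
          rw [← Finset.card_product]
          apply Finset.card_le_card_of_injOn (fun q => (q.1.1, q.2.1))
          · intro q hq
            have hq0 := Finset.mem_filter.1 (Finset.mem_coe.1 hq)
            have hq1 := Finset.mem_filter.1 hq0.1
            have hq' := Finset.mem_filter.1 hq1.1
            have hadj := (mem_DP Gs q).1 hq'.1
            have hc := hq1.2
            have he := hq0.2
            obtain ⟨⟨x, a⟩, ⟨y, b⟩⟩ := q
            have hr : G.Reachable x y := hDIFF F V G k Gs hG hcop hfree x y a b hadj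
            have hx : G.Reachable x0 x := by
              apply SimpleGraph.ConnectedComponent.exact
              rw [hx0']
              exact hc.symm
            have he' : (a, b) = ab := he
            subst he'
            apply Finset.mem_coe.2
            apply Finset.mem_product.2
            exact ⟨Finset.mem_filter.2 ⟨Finset.mem_univ _, y, hadj, hx.trans hr⟩,
              Finset.mem_filter.2 ⟨Finset.mem_univ _, x, hadj, hx⟩⟩
          · intro q hq q' hq' he
            have h1 : (q.1.2, q.2.2) = ab := (Finset.mem_filter.1 (Finset.mem_coe.1 hq)).2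
            have h2 : (q'.1.2, q'.2.2) = ab := (Finset.mem_filter.1 (Finset.mem_coe.1 hq')).2
            obtain ⟨⟨x, a⟩, ⟨y, b⟩⟩ := q
            obtain ⟨⟨x', a'⟩, ⟨y', b'⟩⟩ := q'
            rw [← h2] at h1
            simp only [Prod.mk.injEq] at he h1 ⊢
            exact ⟨⟨he.1, h1.1⟩, he.2, h1.2⟩
  rw [card_DP, card_DP] at key
  have h2 : 2 * Gs.edgeSet.ncard ≤ 2 * (k * G.edgeSet.ncard + uniq G * (h * h * K * k)) := by
    calc _ ≤ _ := key
      _ = _ := by ring
  omega

end Run7.h404.GM
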