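-- module Pool.Agent.Run7.h404.GM.UNI
import Mathlib
import Pool.Agent.Run7.h834.GM.Iface

set_option autoImplicit false

namespace Run7.h404.GM

open Run7.h834.GM SimpleGraph

theorem t_UNI : S_UNI := by
  classical
  intro s
  refine ⟨Fintype.card (Σ t : Fin (s + 1), SimpleGraph (Fin (t : ℕ))), ?_⟩
  intro V _ G
  have : Finite G.ConnectedComponent := Quot.finite _
  let S : Set G.ConnectedComponent :=
    {c : G.ConnectedComponent | ∃ x, G.connectedComponentMk x = c ∧ ¬ Twin G x}
  have hS : uniq G = S.toFinite.toFinset.card := Set.ncard_eq_toFinset_card S S.toFinite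
  let U : Finset G.ConnectedComponent := S.toFinite.toFinset
  have hU : ∀ c ∈ U, ∃ x, G.connectedComponentMk x = c ∧ ¬ Twin G x := by
    intro c hc
    have h1 : c ∈ S := (Set.Finite.mem_toFinset S.toFinite).1 hc
    exact h1
  let rep : G.ConnectedComponent → V := fun c => c.exists_rep.choose
  have hrep : ∀ c, G.connectedComponentMk (rep c) = c := fun c => c.exists_rep.choose_spec
  let C : G.ConnectedComponent → Set V := fun c => {w | G.Reachable (rep c) w}
  have hCcard : ∀ c, Fintype.card (C c) = (Finset.univ.filter fun v =>
      G.connectedComponentMk v = c).card := by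
    intro c
    rw [Fintype.card_subtype]
    congr 1
    ext v
    simp only [Finset.mem_filter, Finset.mem_univ, true_and]
    constructor
    · intro hv
      have hv' : G.Reachable (rep c) v := hv
      rw [← hrep c]
      exact (SimpleGraph.ConnectedComponent.sound hv').symm
    · intro hv
      show G.Reachable (rep c) v
      apply SimpleGraph.ConnectedComponent.exact
      rw [hrep c, hv]
  have hsplit : U.card = (U.filter fun c => Fintype.card (C c) ≤ s).card +
      (U.filter fun c => ¬ Fintype.card (C c) ≤ s).card :=
    (Finset.card_filter_add_card_filter_not _).symm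
  have hA : (U.filter fun c => Fintype.card (C c) ≤ s).card ≤
      Fintype.card (Σ t : Fin (s + 1), SimpleGraph (Fin (t : ℕ))) := by
    rw [← Finset.card_univ]
    let f : G.ConnectedComponent → (Σ t : Fin (s + 1), SimpleGraph (Fin (t : ℕ))) := fun c =>
      if hc : Fintype.card (C c) ≤ s then
        ⟨⟨Fintype.card (C c), Nat.lt_succ_of_le hc⟩,
          (G.induce (C c)).map (Fintype.equivFin (C c)).toEmbedding⟩
      else ⟨⟨0, Nat.succ_pos s⟩, ⊥⟩
    apply Finset.card_le_card_of_injOn f
    · intro c _
      exact Finset.mem_coe.2 (Finset.mem_univ _)
    · intro c hc c' hc' he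
      have h1 := Finset.mem_filter.1 (Finset.mem_coe.1 hc)
      have h2 := Finset.mem_filter.1 (Finset.mem_coe.1 hc')
      by_contra hne
      have he' : f c = f c' := he
      simp only [f, dif_pos h1.2, dif_pos h2.2] at he'
      have iso : ∀ c, G.induce (C c) ≃g
          (G.induce (C c)).map (Fintype.equivFin (C c)).toEmbedding := fun c =>
        SimpleGraph.Iso.map (Fintype.equivFin (C c)) (G.induce (C c))
      have hiso : Nonempty (G.induce (C c) ≃g G.induce (C c')) := by
        have key : ∀ (t t' : Fin (s + 1)) (H : SimpleGraph (Fin (t : ℕ)))
            (H' : SimpleGraph (Fin (t' : ℕ))),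
            (⟨t, H⟩ : Σ t : Fin (s + 1), SimpleGraph (Fin (t : ℕ))) = ⟨t', H'⟩ →
            Nonempty (H ≃g H') := by
          intro t t' H H' hh
          obtain ⟨rfl, hh2⟩ := Sigma.mk.inj_iff.1 hh
          obtain rfl := eq_of_heq hh2
          exact ⟨SimpleGraph.Iso.refl⟩
        obtain ⟨e⟩ := key _ _ _ _ he'
        exact ⟨((iso c).trans e).trans (iso c').symm⟩
      obtain ⟨x, hx, hT⟩ := hU c h1.1
      apply hT
      refine ⟨rep c', ?_, ?_⟩
      · intro hr
        apply hne
        rw [← hx, ← hrep c']
        exact SimpleGraph.ConnectedComponent.sound hr
      · have hset : {w | G.Reachable x w} = C c := by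
          have hxr : G.Reachable x (rep c) := by
            apply SimpleGraph.ConnectedComponent.exact
            rw [hx, hrep c]
          ext w
          exact ⟨fun hw => hxr.symm.trans hw, fun hw => hxr.trans hw⟩
        rw [hset]
        exact hiso
  have hB : s * (U.filter fun c => ¬ Fintype.card (C c) ≤ s).card ≤ Fintype.card V := by
    rw [← Finset.card_univ]
    calc s * (U.filter fun c => ¬ Fintype.card (C c) ≤ s).card
        ≤ (Finset.univ.filter fun v : V => G.connectedComponentMk v ∈
          (U.filter fun c => ¬ Fintype.card (C c) ≤ s)).card := by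
          apply Finset.mul_card_image_le_card_of_maps_to
            (f := fun v : V => G.connectedComponentMk v)
          · intro v hv
            exact (Finset.mem_filter.1 hv).2
          · intro c hc
            have h1 := (Finset.mem_filter.1 hc).2
            rw [hCcard] at h1
            rw [Finset.filter_filter]
            have h2 : (Finset.univ.filter fun v : V => G.connectedComponentMk v ∈
                (U.filter fun c => ¬ Fintype.card (C c) ≤ s) ∧
                G.connectedComponentMk v = c) =
                Finset.univ.filter fun v => G.connectedComponentMk v = c := by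
              ext v
              simp only [Finset.mem_filter, Finset.mem_univ, true_and]
              constructor
              · intro hv
                exact hv.2
              · intro hv
                refine ⟨?_, hv⟩
                rw [hv]
                exact Finset.mem_filter.1 hc
            rw [h2]
            omega
      _ ≤ (Finset.univ : Finset V).card := Finset.card_le_card (Finset.filter_subset _ _)
  rw [hS]
  show s * U.card ≤ _
  rw [hsplit, Nat.mul_add]
  exact Nat.add_le_add (Nat.mul_le_mul_left s hA) hB

end Run7.h404.GM
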